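import Mathlib
import Pool.Agent.H64.Pent.Defs
import Pool.Agent.H57.TH.Theta

set_option autoImplicit false

/-!
A permutation graph without a removable circuit satisfies `Crit` (MP_a46c6f_co).
-/

namespace Pool.Agent.H59.Pent

open SimpleGraph Pool.Agent.H5.Goddyn Pool.Agent.H98.TC Pool.Agent.H64.Pent

lemma z2 : ∀ z : ZMod 2, z = 0 ∨ z = 1 := by decide

lemma one_ne {n : ℕ} (hn : 3 ≤ n) (i : ZMod n) : i + 1 ≠ i := by
  intro h
  have h1 : (1 : ZMod n) = 0 := by simpa using h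
  have h2 : ((1 : ℕ) : ZMod n) = 0 := by simpa using h1
  rw [ZMod.natCast_eq_zero_iff] at h2
  exact absurd (Nat.le_of_dvd (by norm_num) h2) (by omega)

lemma two_ne {n : ℕ} (hn : 3 ≤ n) (i : ZMod n) : i + 1 ≠ i - 1 := by
  intro h
  have h1 : (2 : ZMod n) = 0 := by
    have : (i + 1) - (i - 1) = 0 := by rw [h, sub_self]
    ring_nf at this
    exact this
  have h2 : ((2 : ℕ) : ZMod n) = 0 := by simpa using h1
  rw [ZMod.natCast_eq_zero_iff] at h2
  exact absurd (Nat.le_of_dvd (by norm_num) h2) (by omega)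

/-- the parity argument -/
lemma parity {n : ℕ} [NeZero n] (p : Equiv.Perm (ZMod n)) (a b X Y : ZMod n → ZMod 2) (e : ZMod n)
    (hab : ∀ i, a (i - 1) + a i = b (p i - 1) + b (p i)) (hX : ∀ i, a i = 0 → X i = X (i + 1))
    (hY : ∀ j, b j = 0 → Y j = Y (j + 1)) (hXY : ∀ i, i ≠ e → X i = Y (p i)) (hXe : X e = 1)
    (hYe : Y (p e) = 0) : a (e - 1) + a e = 0 := by
  have key : ∀ (a X : ZMod n → ZMod 2), (∀ i, a i = 0 → X i = X (i + 1)) →
      ∑ i, (a (i - 1) + a i) * X i = 0 := by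
    intro a X hX
    have h1 : ∀ i, X i + X (i + 1) = a i * (X i + X (i + 1)) := by
      intro i
      rcases z2 (a i) with h | h
      · rw [hX i h, h, zero_mul]
        exact CharTwo.add_self_eq_zero _
      · rw [h, one_mul]
    have h2 : ∑ i, (X i + X (i + 1)) = 0 := by
      rw [Finset.sum_add_distrib]
      have : ∑ i, X (i + 1) = ∑ i, X i := Equiv.sum_comp (Equiv.addRight (1 : ZMod n)) X
      rw [this]
      exact CharTwo.add_self_eq_zero _
    have h3 : ∑ i, a i * (X i + X (i + 1)) = 0 := by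
      rw [← h2]
      exact Finset.sum_congr rfl fun i _ => (h1 i).symm
    have h4 : ∑ i, a i * X (i + 1) = ∑ i, a (i - 1) * X i := by
      have := Equiv.sum_comp (Equiv.addRight (1 : ZMod n)) (fun i => a (i - 1) * X i)
      rw [← this]
      refine Finset.sum_congr rfl fun i _ => ?_
      show a i * X (i + 1) = a (i + 1 - 1) * X (i + 1)
      rw [add_sub_cancel_right]
    rw [← h3]
    simp only [mul_add, add_mul, Finset.sum_add_distrib]
    rw [h4, add_comm]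
  have k1 := key a X hX
  have k2 := key b Y hY
  have k3 : ∑ i, (b (p i - 1) + b (p i)) * Y (p i) = 0 := by
    rw [← k2]
    exact Equiv.sum_comp p (fun j => (b (j - 1) + b j) * Y j)
  have k4 : ∑ i, (a (i - 1) + a i) * (X i + Y (p i)) = 0 := by
    have : ∑ i, (a (i - 1) + a i) * (X i + Y (p i)) =
        ∑ i, (a (i - 1) + a i) * X i + ∑ i, (b (p i - 1) + b (p i)) * Y (p i) := by
      rw [← Finset.sum_add_distrib]
      refine Finset.sum_congr rfl fun i _ => ?_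
      rw [mul_add, ← hab i]
    rw [this, k1, k3, add_zero]
  rw [Finset.sum_eq_single e] at k4
  · rw [hXe, hYe, add_zero, mul_one] at k4
    exact k4
  · intro i _ hi
    rw [hXY i hi, CharTwo.add_self_eq_zero, mul_zero]
  · intro h
    exact absurd (Finset.mem_univ e) h

/-- the alternating subgraph -/
def AG {V : Type*} {n : ℕ} (x y : ZMod n → V) (p : Equiv.Perm (ZMod n)) (a b : ZMod n → ZMod 2)
    (hx : ∀ i, x i ≠ x (i + 1)) (hy : ∀ j, y j ≠ y (j + 1)) (hxy : ∀ i j, x i ≠ y j) :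
    SimpleGraph V where
  Adj u v := (∃ i, a i = 1 ∧ ((u = x i ∧ v = x (i + 1)) ∨ (u = x (i + 1) ∧ v = x i))) ∨
    (∃ j, b j = 1 ∧ ((u = y j ∧ v = y (j + 1)) ∨ (u = y (j + 1) ∧ v = y j))) ∨
    (∃ i, a (i - 1) + a i = 1 ∧ ((u = x i ∧ v = y (p i)) ∨ (u = y (p i) ∧ v = x i)))
  symm := ⟨by
    rintro u v (⟨i, hi, h | h⟩ | ⟨j, hj, h | h⟩ | ⟨i, hi, h | h⟩)
    · exact Or.inl ⟨i, hi, Or.inr ⟨h.2, h.1⟩⟩
    · exact Or.inl ⟨i, hi, Or.inl ⟨h.2, h.1⟩⟩
    · exact Or.inr (Or.inl ⟨j, hj, Or.inr ⟨h.2, h.1⟩⟩)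
    · exact Or.inr (Or.inl ⟨j, hj, Or.inl ⟨h.2, h.1⟩⟩)
    · exact Or.inr (Or.inr ⟨i, hi, Or.inr ⟨h.2, h.1⟩⟩)
    · exact Or.inr (Or.inr ⟨i, hi, Or.inl ⟨h.2, h.1⟩⟩)⟩
  loopless := ⟨by
    rintro u (⟨i, hi, h | h⟩ | ⟨j, hj, h | h⟩ | ⟨i, hi, h | h⟩)
    · exact hx i (h.1.symm.trans h.2)
    · exact hx i (h.2.symm.trans h.1)
    · exact hy j (h.1.symm.trans h.2)
    · exact hy j (h.2.symm.trans h.1)
    · exact hxy i (p i) (h.1.symm.trans h.2)
    · exact hxy i (p i) (h.2.symm.trans h.1)⟩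

section

variable {V : Type*} {n : ℕ} {x y : ZMod n → V} {p : Equiv.Perm (ZMod n)} {a b : ZMod n → ZMod 2}
  {hx : ∀ i, x i ≠ x (i + 1)} {hy : ∀ j, y j ≠ y (j + 1)} {hxy : ∀ i j, x i ≠ y j}

lemma adj_x (ix : Function.Injective x) (i : ZMod n) (w : V) :
    (AG x y p a b hx hy hxy).Adj (x i) w ↔ (a i = 1 ∧ w = x (i + 1)) ∨
      (a (i - 1) = 1 ∧ w = x (i - 1)) ∨ (a (i - 1) + a i = 1 ∧ w = y (p i)) := by
  constructor
  · rintro (⟨k, hk, h | h⟩ | ⟨j, hj, h | h⟩ | ⟨k, hk, h | h⟩)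
    · have := ix h.1
      subst this
      exact Or.inl ⟨hk, h.2⟩
    · have := ix h.1
      subst this
      refine Or.inr (Or.inl ⟨?_, ?_⟩)
      · rw [add_sub_cancel_right]; exact hk
      · rw [add_sub_cancel_right]; exact h.2
    · exact absurd h.1 (hxy _ _)
    · exact absurd h.1 (hxy _ _)
    · have := ix h.1
      subst this
      exact Or.inr (Or.inr ⟨hk, h.2⟩)
    · exact absurd h.1 (hxy _ _)
  · rintro (⟨h1, h2⟩ | ⟨h1, h2⟩ | ⟨h1, h2⟩)
    · exact Or.inl ⟨i, h1, Or.inl ⟨rfl, h2⟩⟩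
    · exact Or.inl ⟨i - 1, h1, Or.inr ⟨by rw [sub_add_cancel], h2⟩⟩
    · exact Or.inr (Or.inr ⟨i, h1, Or.inl ⟨rfl, h2⟩⟩)

lemma adj_y (iy : Function.Injective y) (i : ZMod n) (w : V) :
    (AG x y p a b hx hy hxy).Adj (y (p i)) w ↔ (b (p i) = 1 ∧ w = y (p i + 1)) ∨
      (b (p i - 1) = 1 ∧ w = y (p i - 1)) ∨ (a (i - 1) + a i = 1 ∧ w = x i) := by
  constructor
  · rintro (⟨k, hk, h | h⟩ | ⟨j, hj, h | h⟩ | ⟨k, hk, h | h⟩)
    · exact absurd h.1.symm (hxy _ _)
    · exact absurd h.1.symm (hxy _ _)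
    · have := iy h.1
      rw [this]
      exact Or.inl ⟨hj, h.2⟩
    · have := iy h.1
      rw [this]
      refine Or.inr (Or.inl ⟨?_, ?_⟩)
      · rw [add_sub_cancel_right]; exact hj
      · rw [add_sub_cancel_right]; exact h.2
    · exact absurd h.1.symm (hxy _ _)
    · have := p.injective (iy h.1)
      subst this
      exact Or.inr (Or.inr ⟨hk, h.2⟩)
  · rintro (⟨h1, h2⟩ | ⟨h1, h2⟩ | ⟨h1, h2⟩)
    · exact Or.inr (Or.inl ⟨p i, h1, Or.inl ⟨rfl, h2⟩⟩)
    · exact Or.inr (Or.inl ⟨p i - 1, h1, Or.inr ⟨by rw [sub_add_cancel], h2⟩⟩)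
    · exact Or.inr (Or.inr ⟨i, h1, Or.inr ⟨rfl, h2⟩⟩)

end

lemma z2_sum : ∀ a b : ZMod 2, a + b = 1 → (a = 0 ∧ b = 1) ∨ (a = 1 ∧ b = 0) := by decide

theorem crit_of_removable {V : Type*} [Finite V] (G : SimpleGraph V) (M C₁ C₂ : G.Subgraph)
    (h : IsPermutationGraph G M C₁ C₂) (hrem : ∀ C : G.Subgraph, ¬ Removable G (wt M) C) {n : ℕ}
    (hn : 3 ≤ n) (x y : ZMod n → V) (p : Equiv.Perm (ZMod n)) (hx : Numb C₁ x) (hy : Numb C₂ y)
    (hM : ∀ i, M.Adj (x i) (y (p i))) : Crit p := by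
  classical
  have : NeZero n := ⟨by omega⟩
  intro a b hA ⟨i₀, hi₀⟩
  have ix := hx.1
  have iy := hy.1
  have mx : ∀ i, x i ∈ C₁.verts := fun i => by rw [← hx.2.1]; exact ⟨i, rfl⟩
  have my : ∀ j, y j ∈ C₂.verts := fun j => by rw [← hy.2.1]; exact ⟨j, rfl⟩
  have hxy : ∀ i j, x i ≠ y j := by
    intro i j hij
    exact Set.disjoint_left.1 h.disjoint (mx i) (hij ▸ my j)
  have hx1 : ∀ i, x i ≠ x (i + 1) := fun i hi => one_ne hn i (ix hi).symm
  have hy1 : ∀ j, y j ≠ y (j + 1) := fun j hj => one_ne hn j (iy hj).symm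
  have hcov : ∀ v, (∃ i, v = x i) ∨ ∃ i, v = y (p i) := by
    intro v
    rcases cover' h v with hv | hv
    · rw [← hx.2.1] at hv
      obtain ⟨i, hi⟩ := hv
      exact Or.inl ⟨i, hi.symm⟩
    · rw [← hy.2.1] at hv
      obtain ⟨j, hj⟩ := hv
      exact Or.inr ⟨p.symm j, by rw [Equiv.apply_symm_apply]; exact hj.symm⟩
  have hCx : ∀ i, C₁.Adj (x i) (x (i + 1)) := fun i => (hx.2.2 i _).2 (Or.inr rfl)
  have hCy : ∀ j, C₂.Adj (y j) (y (j + 1)) := fun j => (hy.2.2 j _).2 (Or.inr rfl)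
  -- the values of a pair at a matching edge
  have hvx : ∀ i, (a (i - 1) = 0 ∧ a i = 0) ∨ (a (i - 1) + a i = 1 ∧
      ((a (i - 1) = 0 ∧ a i = 1) ∨ (a (i - 1) = 1 ∧ a i = 0))) := by
    intro i
    rcases hA i with hh | hh
    · exact Or.inl ⟨hh.1, hh.2.1⟩
    · exact Or.inr ⟨hh.1, z2_sum _ _ hh.1⟩
  have hvy : ∀ i, (b (p i - 1) = 0 ∧ b (p i) = 0 ∧ a (i - 1) = 0 ∧ a i = 0) ∨
      (a (i - 1) + a i = 1 ∧
      ((b (p i - 1) = 0 ∧ b (p i) = 1) ∨ (b (p i - 1) = 1 ∧ b (p i) = 0))) := by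
    intro i
    rcases hA i with hh | hh
    · exact Or.inl ⟨hh.2.2.1, hh.2.2.2, hh.1, hh.2.1⟩
    · exact Or.inr ⟨hh.1, z2_sum _ _ hh.2⟩
  have hab : ∀ i, a (i - 1) + a i = b (p i - 1) + b (p i) := by
    intro i
    rcases hA i with hh | hh
    · rw [hh.1, hh.2.1, hh.2.2.1, hh.2.2.2]
    · rw [hh.1, hh.2]
  -- the alternating subgraph and its component
  let A : SimpleGraph V := AG x y p a b hx1 hy1 hxy
  have hax : ∀ i w, A.Adj (x i) w ↔ (a i = 1 ∧ w = x (i + 1)) ∨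
      (a (i - 1) = 1 ∧ w = x (i - 1)) ∨ (a (i - 1) + a i = 1 ∧ w = y (p i)) :=
    fun i w => adj_x ix i w
  have hay : ∀ i w, A.Adj (y (p i)) w ↔ (b (p i) = 1 ∧ w = y (p i + 1)) ∨
      (b (p i - 1) = 1 ∧ w = y (p i - 1)) ∨ (a (i - 1) + a i = 1 ∧ w = x i) :=
    fun i w => adj_y iy i w
  have hAG : ∀ u v, A.Adj u v → G.Adj u v := by
    rintro u v (⟨i, hi, h | h⟩ | ⟨j, hj, h | h⟩ | ⟨i, hi, h | h⟩)
    · rw [h.1, h.2]; exact (hCx i).adj_sub
    · rw [h.1, h.2]; exact (hCx i).adj_sub.symm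
    · rw [h.1, h.2]; exact (hCy j).adj_sub
    · rw [h.1, h.2]; exact (hCy j).adj_sub.symm
    · rw [h.1, h.2]; exact (hM i).adj_sub
    · rw [h.1, h.2]; exact (hM i).adj_sub.symm
  have hdeg : ∀ v w, A.Adj v w → (A.neighborSet v).ncard = 2 := by
    intro v w hvw
    rcases hcov v with ⟨i, rfl⟩ | ⟨i, rfl⟩
    · rcases hvx i with ⟨h1, h2⟩ | ⟨h0, ⟨h1, h2⟩ | ⟨h1, h2⟩⟩
      · exfalso
        rw [hax i w, h1, h2] at hvw
        rcases hvw with hh | hh | hh
        · exact absurd hh.1 (by decide)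
        · exact absurd hh.1 (by decide)
        · exact absurd hh.1 (by decide)
      · have hs : A.neighborSet (x i) = {x (i + 1), y (p i)} := by
          ext z
          rw [mem_neighborSet, hax i z, h1, h2]
          simp
        rw [hs]
        exact Set.ncard_pair (hxy _ _)
      · have hs : A.neighborSet (x i) = {x (i - 1), y (p i)} := by
          ext z
          rw [mem_neighborSet, hax i z, h1, h2]
          simp
        rw [hs]
        exact Set.ncard_pair (hxy _ _)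
    · rcases hvy i with ⟨h1, h2, h3, h4⟩ | ⟨h0, ⟨h1, h2⟩ | ⟨h1, h2⟩⟩
      · exfalso
        rw [hay i w, h1, h2, h3, h4] at hvw
        rcases hvw with hh | hh | hh
        · exact absurd hh.1 (by decide)
        · exact absurd hh.1 (by decide)
        · exact absurd hh.1 (by decide)
      · have hs : A.neighborSet (y (p i)) = {y (p i + 1), x i} := by
          ext z
          rw [mem_neighborSet, hay i z, h1, h2, h0]
          simp
        rw [hs]
        exact Set.ncard_pair (hxy _ _).symm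
      · have hs : A.neighborSet (y (p i)) = {y (p i - 1), x i} := by
          ext z
          rw [mem_neighborSet, hay i z, h1, h2, h0]
          simp
        rw [hs]
        exact Set.ncard_pair (hxy _ _).symm
  have hA0 : A.Adj (x i₀) (x (i₀ + 1)) := (hax i₀ _).2 (Or.inl ⟨hi₀, rfl⟩)
  let C : G.Subgraph := compOf G A hAG (x i₀)
  have hC : IsCircuit C := compOf_circuit G A hAG hdeg (x i₀) (x (i₀ + 1)) hA0
  -- the graph without the edges of the alternating subgraph outside `M`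
  let T : SimpleGraph V :=
    { Adj := fun u v => G.Adj u v ∧ (A.Adj u v → M.Adj u v)
      symm := ⟨fun u v hh => ⟨hh.1.symm, fun h1 => (hh.2 h1.symm).symm⟩⟩
      loopless := ⟨fun u hh => G.loopless.irrefl _ hh.1⟩ }
  have hbr : ∃ u v, M.Adj u v ∧ T.IsBridge s(u, v) := by
    by_contra hcon
    push Not at hcon
    exact hrem C (Pool.Agent.H57.TH.removable_of_bridgeless G M C₁ C₂ h T C hC
      (fun _ _ hh => hh.1) (fun _ _ h1 h2 => h1.2 h2.1) (fun u v h1 _ => hcon u v h1))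
  have hMu : ∀ v w w', M.Adj v w → M.Adj v w' → w = w' := by
    intro v w w' h1 h2
    exact (h.perfect.1 (h.perfect.2 v)).unique h1 h2
  obtain ⟨e, he⟩ : ∃ e, T.IsBridge s(x e, y (p e)) := by
    obtain ⟨u, v, huv, hb⟩ := hbr
    rcases hcov u with ⟨i, rfl⟩ | ⟨i, rfl⟩
    · have := hMu _ _ _ huv (hM i)
      rw [this] at hb
      exact ⟨i, hb⟩
    · have := hMu _ _ _ huv (hM i).symm
      rw [this, Sym2.eq_swap] at hb
      exact ⟨i, hb⟩
  rw [isBridge_iff] at he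
  let T' : SimpleGraph V := T.deleteEdges {s(x e, y (p e))}
  have he' : ¬ T'.Reachable (x e) (y (p e)) := he
  have hTx : ∀ i, a i = 0 → T'.Adj (x i) (x (i + 1)) := by
    intro i hi
    refine deleteEdges_adj.2 ⟨⟨(hCx i).adj_sub, ?_⟩, ?_⟩
    · intro hh
      exfalso
      rw [hax] at hh
      rcases hh with hh | hh | hh
      · exact absurd (hi.symm.trans hh.1) (by decide)
      · exact two_ne hn i (ix hh.2)
      · exact hxy _ _ hh.2
    · intro hh
      rw [Set.mem_singleton_iff, Sym2.eq_iff] at hh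
      rcases hh with hh | hh
      · exact hxy _ _ hh.2
      · exact hxy _ _ hh.1
  have hTy : ∀ j, b j = 0 → T'.Adj (y j) (y (j + 1)) := by
    intro j hj
    refine deleteEdges_adj.2 ⟨⟨(hCy j).adj_sub, ?_⟩, ?_⟩
    · intro hh
      exfalso
      have hj' : j = p (p.symm j) := (Equiv.apply_symm_apply p j).symm
      rw [hj', hay, ← hj'] at hh
      rcases hh with hh | hh | hh
      · exact absurd (hj.symm.trans hh.1) (by decide)
      · exact two_ne hn j (iy hh.2)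
      · exact hxy _ _ hh.2.symm
    · intro hh
      rw [Set.mem_singleton_iff, Sym2.eq_iff] at hh
      rcases hh with hh | hh
      · exact hxy _ _ hh.1.symm
      · exact hxy _ _ hh.2.symm
  have hTM : ∀ i, i ≠ e → T'.Adj (x i) (y (p i)) := by
    intro i hi
    refine deleteEdges_adj.2 ⟨⟨(hM i).adj_sub, fun _ => hM i⟩, ?_⟩
    intro hh
    rw [Set.mem_singleton_iff, Sym2.eq_iff] at hh
    rcases hh with hh | hh
    · exact hi (ix hh.1)
    · exact hxy _ _ hh.1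
  -- the side of `x e`
  let X : ZMod n → ZMod 2 := fun i => if T'.Reachable (x e) (x i) then 1 else 0
  let Y : ZMod n → ZMod 2 := fun j => if T'.Reachable (x e) (y j) then 1 else 0
  have hcongr : ∀ u v, T'.Adj u v → (T'.Reachable (x e) u ↔ T'.Reachable (x e) v) :=
    fun u v huv => ⟨fun h1 => h1.trans huv.reachable, fun h1 => h1.trans huv.symm.reachable⟩
  have hX : ∀ i, a i = 0 → X i = X (i + 1) := by
    intro i hi
    show (if T'.Reachable (x e) (x i) then (1 : ZMod 2) else 0) = if _ then 1 else 0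
    rw [if_congr (hcongr _ _ (hTx i hi)) rfl rfl]
  have hY : ∀ j, b j = 0 → Y j = Y (j + 1) := by
    intro j hj
    show (if T'.Reachable (x e) (y j) then (1 : ZMod 2) else 0) = if _ then 1 else 0
    rw [if_congr (hcongr _ _ (hTy j hj)) rfl rfl]
  have hXY : ∀ i, i ≠ e → X i = Y (p i) := by
    intro i hi
    show (if T'.Reachable (x e) (x i) then (1 : ZMod 2) else 0) = if _ then 1 else 0
    rw [if_congr (hcongr _ _ (hTM i hi)) rfl rfl]
  have hXe : X e = 1 := if_pos (Reachable.refl _)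
  have hYe : Y (p e) = 0 := if_neg he'
  have hpar := parity p a b X Y e hab hX hY hXY hXe hYe
  have hz : a (e - 1) = 0 ∧ a e = 0 ∧ b (p e - 1) = 0 ∧ b (p e) = 0 := by
    rcases hA e with hh | hh
    · exact hh
    · exact absurd (hpar.symm.trans hh.1) (by decide)
  obtain ⟨z1, z2', z3, z4⟩ := hz
  have hsX : ∀ i, (1 + a (i - 1)) * X (i - 1) = (1 + a (i - 1)) * X i := by
    intro i
    rcases z2 (a (i - 1)) with hh | hh
    · have := hX (i - 1) hh
      rw [sub_add_cancel] at this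
      rw [this]
    · rw [hh]
      have : (1 + 1 : ZMod 2) = 0 := by decide
      rw [this, zero_mul, zero_mul]
  have hsY : ∀ j, (1 + b (j - 1)) * Y (j - 1) = (1 + b (j - 1)) * Y j := by
    intro j
    rcases z2 (b (j - 1)) with hh | hh
    · have := hY (j - 1) hh
      rw [sub_add_cancel] at this
      rw [this]
    · rw [hh]
      have : (1 + 1 : ZMod 2) = 0 := by decide
      rw [this, zero_mul, zero_mul]
  refine ⟨e, fun i => (1 + a i) * X i, fun j => (1 + b j) * Y j, ⟨z1, z2', z3, z4⟩, ⟨?_, ?_, ?_, ?_⟩,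
    ?_⟩
  · show (1 + a (e - 1)) * X (e - 1) = 1
    rw [hsX, z1, hXe]
    decide
  · show (1 + a e) * X e = 1
    rw [z2', hXe]
    decide
  · show (1 + b (p e - 1)) * Y (p e - 1) = 0
    rw [hsY, hYe, mul_zero]
  · show (1 + b (p e)) * Y (p e) = 0
    rw [hYe, mul_zero]
  · intro i hi
    refine ⟨X i, hsX i, rfl, ?_, ?_⟩
    · show (1 + b (p i - 1)) * Y (p i - 1) = (1 + b (p i - 1)) * X i
      rw [hsY, hXY i hi]
    · show (1 + b (p i)) * Y (p i) = (1 + b (p i)) * X i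
      rw [hXY i hi]

end Pool.Agent.H59.Pent
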